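import Pool.Agent.AIC.Main

/-!
Abhyankar's inertia conjecture (tame and wild part) for the groups `SL(2, F)` and `PSL(2, F)`, `F` a finite field.
-/

set_option autoImplicit false

namespace Pool.Agent.Results.MP_231257_ag.SL2Inertia

open scoped MatrixGroups

/-- The integral closure of `R` in `L` is etale over `R`. -/
def EtaleClosure (R L : Type) [CommRing R] [Field L] [Algebra R L] : Prop :=
  Algebra.Etale R ↥(integralClosure R L)

/-- There is a maximal ideal `P` of the integral closure of `R` in `L`, with `y ∈ P`, such that `I`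
consists of the `g ∈ G` which act trivially modulo `P`. -/
def IsInertia (R L : Type) [CommRing R] [Field L] [Algebra R L] (y : L) {G : Type} [Group G]
    (act : G → L → L) (I : Subgroup G) : Prop :=
  ∃ P : Ideal ↥(integralClosure R L), P.IsMaximal ∧
    (∀ b : ↥(integralClosure R L), (b : L) = y → b ∈ P) ∧
    ∀ g : G, g ∈ I ↔
      ∀ b : ↥(integralClosure R L), ∃ c ∈ P, (c : L) = act g (b : L) - (b : L)

/-- The function `x` in `L`. -/
noncomputable def xL (k : Type) [Field k] (L : Type) [Field L] [Algebra (RatFunc k) L] : L :=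
  algebraMap (RatFunc k) L RatFunc.X

/-- `L` is a Galois extension of `k(x)` with group `G` (via `e`), the integral closure of `k[x]` in `L`
is etale over `k[x]`, and `I` is the inertia group at a maximal ideal, containing `1/x`, of the
integral closure of `k[1/x]` in `L`. -/
def OccursIn (k : Type) [Field k] (L : Type) [Field L] [Algebra k L] [Algebra (RatFunc k) L]
    {G : Type} [Group G] (I : Subgroup G) : Prop :=
  IsScalarTower k (RatFunc k) L ∧ FiniteDimensional (RatFunc k) L ∧ IsGalois (RatFunc k) L ∧
    ∃ e : G ≃* (L ≃ₐ[RatFunc k] L), EtaleClosure ↥(Algebra.adjoin k {xL k L}) L ∧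
      IsInertia ↥(Algebra.adjoin k {(xL k L)⁻¹}) L (xL k L)⁻¹ (fun g y => e g y) I

/-- The subgroup `I` of `G` is the inertia group of a point above infinity of a `G`-Galois cover of
the projective line over `k` which is etale over the affine line. Unfolding the definitions above
this is literally the conclusion of the frozen statement `S00075`. -/
def Occurs (k : Type) [Field k] (G : Type) [Group G] (I : Subgroup G) : Prop :=
  ∃ (L : Type) (_ : Field L) (_ : Algebra k L) (_ : Algebra (RatFunc k) L), OccursIn k L I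

theorem occurs_iff (k : Type) [Field k] (G : Type) [Group G] (I : Subgroup G) :
    Occurs k G I ↔ Pool.Agent.AIC.Occ k G I := by
  constructor
  · rintro ⟨L, i1, i2, i3, h1, h2, h3, e, h4, h5⟩
    exact ⟨L, i1, i2, i3, h1, h2, h3, e, h4, h5⟩
  · rintro ⟨L, i1, i2, i3, h1, h2, h3, e, h4, h5⟩
    exact ⟨L, i1, i2, i3, h1, h2, h3, e, h4, h5⟩

/-- Let `k` be an algebraically closed field of characteristic `p`, `F` a finite field of
characteristic `p`, `G` isomorphic to `SL(2, F)` or `PSL(2, F)`, `G₁` a `p`-subgroup of `G` and `β` an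
element of order prime to `p` normalizing `G₁`; if `F` has `9` elements, assume that `G₁` does not have
exactly `3` elements. Then

(1) if `G₁` is not trivial (and `β ≠ 1` in the case `p = 2`), the group `G₁ ⋊ ⟨β⟩` is an inertia group
above infinity of a `G`-Galois cover of the projective line branched only at infinity;

(2) Q1 holds for `G`, `G₁` and `β`: if `G₁` occurs as an inertia group, then so does `G₁ ⋊ ⟨β⟩`. -/
theorem result :
    ∀ (p : ℕ), p.Prime → ∀ (k : Type) [Field k] [IsAlgClosed k] [CharP k p]
      (F : Type) [Field F] [Finite F] [CharP F p] (G : Type) [Group G],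
      (Nonempty (G ≃* SL(2, F)) ∨ Nonempty (G ≃* Matrix.ProjectiveSpecialLinearGroup (Fin 2) F)) →
      ∀ (G₁ : Subgroup G) (β : G), IsPGroup p G₁ → Nat.Coprime (orderOf β) p →
        (∀ h : G, h ∈ G₁ ↔ β * h * β⁻¹ ∈ G₁) →
        (Nat.card F = 9 → Nat.card G₁ ≠ 3) →
        (G₁ ≠ ⊥ → (p = 2 → β ≠ 1) → Occurs k G (G₁ ⊔ Subgroup.zpowers β)) ∧
        (Occurs k G G₁ → Occurs k G (G₁ ⊔ Subgroup.zpowers β)) := by
  intro p hp k _ _ _ F _ _ _ G _ hG G₁ β hG₁ hβ hnorm h9
  haveI : Fact p.Prime := ⟨hp⟩
  refine ⟨?_, ?_⟩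
  · intro hne h2
    rw [occurs_iff]
    exact Pool.Agent.AIC.main p k F G hG G₁ β hG₁ hne hβ hnorm ⟨h2, fun h3 h => h9 h h3⟩
  · intro hocc
    rw [occurs_iff] at hocc ⊢
    exact Pool.Agent.AIC.main2 p k F G hG G₁ β hG₁ hβ hnorm (fun h3 h => h9 h h3) hocc

end Pool.Agent.Results.MP_231257_ag.SL2Inertia
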